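import Mathlib

/-!
The classes of a permutation: the multiset of their cardinalities is the partition of the permutation
(fixed points included).
-/

set_option autoImplicit false

namespace Pool.Agent.Helper39.AN

open Finset Equiv

variable {α : Type} [Fintype α] [DecidableEq α]

theorem cyc_parts (σ : Perm α) :
    ∃ (k : ℕ) (q : α → Fin k), Function.Surjective q ∧ (∀ a b, q a = q b ↔ σ.SameCycle a b) ∧
      (Finset.univ : Finset (Fin k)).val.map (fun j => (univ.filter fun a => q a = j).card) =
        σ.partition.parts := by
  obtain ⟨k, ⟨e⟩⟩ := Finite.exists_equiv_fin (Quotient (Equiv.Perm.SameCycle.setoid σ))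
  let q : α → Fin k := fun a => e (Quotient.mk (Equiv.Perm.SameCycle.setoid σ) a)
  have hqs : Function.Surjective q := by
    intro j
    obtain ⟨a, ha⟩ := Quotient.exists_rep (e.symm j)
    refine ⟨a, ?_⟩
    show e (Quotient.mk (Equiv.Perm.SameCycle.setoid σ) a) = j
    rw [ha, Equiv.apply_symm_apply]
  have hq : ∀ a b, q a = q b ↔ σ.SameCycle a b := by
    intro a b
    show e _ = e _ ↔ _
    rw [e.injective.eq_iff, Quotient.eq]
    rfl
  refine ⟨k, q, hqs, hq, ?_⟩
  let rep : Fin k → α := Function.surjInv hqs
  have hrep : ∀ j, q (rep j) = j := fun j => Function.surjInv_eq hqs j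
  have hsplit : (univ : Finset (Fin k)).val.map (fun j => (univ.filter fun a => q a = j).card) =
      (univ.filter (fun j : Fin k => rep j ∈ σ.support)).val.map
        (fun j => (univ.filter fun a => q a = j).card) +
      (univ.filter (fun j : Fin k => rep j ∉ σ.support)).val.map
        (fun j => (univ.filter fun a => q a = j).card) := by
    rw [← Multiset.map_add]
    congr 1
    rw [Finset.filter_val, Finset.filter_val, Multiset.filter_add_not]
  have h1 : (univ.filter (fun j : Fin k => rep j ∈ σ.support)).val.map
      (fun j => (univ.filter fun a => q a = j).card) = σ.cycleType := by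
    rw [Equiv.Perm.cycleType_def]
    refine Multiset.map_eq_map_of_bij_of_nodup _ _ (Finset.nodup _) (Finset.nodup _)
      (fun j _ => σ.cycleOf (rep j)) ?_ ?_ ?_ ?_
    · intro j hj
      rw [Finset.mem_val, Finset.mem_filter] at hj
      exact Equiv.Perm.cycleOf_mem_cycleFactorsFinset_iff.2 hj.2
    · intro j hj i hi hij
      rw [Finset.mem_val, Finset.mem_filter] at hj hi
      have h2 : rep j ∈ (σ.cycleOf (rep j)).support :=
        Equiv.Perm.mem_support_cycleOf_iff.2 ⟨Equiv.Perm.SameCycle.refl _ _, hj.2⟩
      rw [hij] at h2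
      have h3 := (Equiv.Perm.mem_support_cycleOf_iff.1 h2).1
      rw [← hrep j, ← hrep i]
      exact ((hq _ _).2 h3).symm
    · intro c hc
      have hcyc : c.IsCycle := (Equiv.Perm.mem_cycleFactorsFinset_iff.1 hc).1
      obtain ⟨a, ha⟩ := hcyc.nonempty_support
      have hca : c = σ.cycleOf a := Equiv.Perm.cycle_is_cycleOf ha hc
      have hs : σ.SameCycle (rep (q a)) a := (hq _ _).1 (hrep (q a))
      have hae : σ.cycleOf (rep (q a)) = σ.cycleOf a := hs.cycleOf_eq
      refine ⟨q a, ?_, ?_⟩
      · rw [Finset.mem_val, Finset.mem_filter]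
        refine ⟨mem_univ _, ?_⟩
        rw [← Equiv.Perm.cycleOf_mem_cycleFactorsFinset_iff, hae, ← hca]
        exact hc
      · show σ.cycleOf (rep (q a)) = c
        rw [hae, ← hca]
    · intro j hj
      rw [Finset.mem_val, Finset.mem_filter] at hj
      have : (univ.filter fun a => q a = j) = (σ.cycleOf (rep j)).support := by
        ext a
        rw [Finset.mem_filter, Equiv.Perm.mem_support_cycleOf_iff]
        constructor
        · rintro ⟨-, ha⟩
          exact ⟨(hq _ _).1 (by rw [hrep, ha]), hj.2⟩
        · rintro ⟨h, -⟩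
          refine ⟨mem_univ _, ?_⟩
          rw [← (hq _ _).2 h, hrep]
      rw [this]
      rfl
  have h2 : (univ.filter (fun j : Fin k => rep j ∉ σ.support)).val.map
      (fun j => (univ.filter fun a => q a = j).card) =
      Multiset.replicate (univ.filter (fun j : Fin k => rep j ∉ σ.support)).card 1 := by
    rw [Multiset.eq_replicate]
    refine ⟨by rw [Multiset.card_map]; rfl, ?_⟩
    intro b hb
    obtain ⟨j, hj, rfl⟩ := Multiset.mem_map.1 hb
    rw [Finset.mem_val, Finset.mem_filter] at hj
    have hfix : σ (rep j) = rep j := Equiv.Perm.notMem_support.1 hj.2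
    have : (univ.filter fun a => q a = j) = {rep j} := by
      ext a
      rw [Finset.mem_filter, Finset.mem_singleton]
      constructor
      · rintro ⟨-, ha⟩
        have hs : σ.SameCycle (rep j) a := (hq _ _).1 (by rw [hrep, ha])
        exact (hs.eq_of_left hfix).symm
      · rintro rfl
        exact ⟨mem_univ _, hrep j⟩
    rw [this, Finset.card_singleton]
  have hsum : ((univ : Finset (Fin k)).val.map
      (fun j => (univ.filter fun a => q a = j).card)).sum = Fintype.card α := by
    change ∑ j, (univ.filter fun a => q a = j).card = _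
    rw [← Finset.card_eq_sum_card_fiberwise (fun a _ => Finset.mem_coe.2 (mem_univ _))]
    rfl
  rw [hsplit, h1, h2] at hsum ⊢
  rw [Multiset.sum_add, Multiset.sum_replicate, smul_eq_mul, mul_one, Equiv.Perm.sum_cycleType] at hsum
  rw [Equiv.Perm.parts_partition]
  congr 2
  omega

/-- number of functions constant on the cycles -/
theorem inv_card (σ : Perm α) (k : ℕ) :
    Nat.card {B : α → Fin k // ∀ x, B (σ x) = B x} = k ^ σ.partition.parts.card := by
  obtain ⟨n, q, hqs, hq, hp⟩ := cyc_parts σ
  rw [← hp, Multiset.card_map]
  have hn : Multiset.card (univ : Finset (Fin n)).val = n := by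
    change (univ : Finset (Fin n)).card = n
    rw [Finset.card_univ, Fintype.card_fin]
  rw [hn]
  have hc : ∀ B : {B : α → Fin k // ∀ x, B (σ x) = B x}, ∀ a b, σ.SameCycle a b → B.1 a = B.1 b := by
    intro B a b hab
    obtain ⟨i, -, rfl⟩ := hab.exists_pow_eq'
    induction i with
    | zero => rw [pow_zero, Equiv.Perm.one_apply]
    | succ i ih =>
      rw [pow_succ', Equiv.Perm.mul_apply, B.2]
      exact ih ⟨i, by rw [zpow_natCast]⟩
  let E : {B : α → Fin k // ∀ x, B (σ x) = B x} ≃ (Fin n → Fin k) :=
    { toFun := fun B j => B.1 (Function.surjInv hqs j)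
      invFun := fun f => ⟨fun a => f (q a), fun x => by
        change f (q (σ x)) = f (q x)
        rw [(hq (σ x) x).2 (Equiv.Perm.sameCycle_apply_left.2 (Equiv.Perm.SameCycle.refl _ _))]⟩
      left_inv := by
        intro B
        apply Subtype.ext
        funext a
        exact hc B _ _ ((hq _ _).1 (Function.surjInv_eq hqs _))
      right_inv := by
        intro f
        funext j
        simp only
        rw [Function.surjInv_eq hqs] }
  rw [Nat.card_congr E, Nat.card_eq_fintype_card, Fintype.card_fun, Fintype.card_fin,
    Fintype.card_fin]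

end Pool.Agent.Helper39.AN
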